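import Pool.Agent.helper9.Tors.Final
import Pool.Agent.helper9.Tors.Fund
import Pool.Agent.helper22.FM.V1
import Pool.Agent.helper28.FM.V2
import Pool.Agent.helper9.FM.V3
import Pool.Agent.helper20.FM.V4
import Pool.Agent.helper79.FM.V5

/-!
FM (MP_16912e_nt), final theorem: first moment, imaginary quadratic fields.

For every prime `p ≥ 7` and every `ε > 0`, for all large `N`,

  `∑_{-N < D < 0, D fundamental} (#Cl(D)[p] - 1) ≥ N ^ (1/2 + 2/p - ε)`.

Here `f D` stands for `#Cl(ℚ(√D))[p]`, exactly as in the frozen statement.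
-/

set_option autoImplicit false

open Filter Topology Classical

namespace Pool.Agent.FM

theorem firstMoment :
    ∀ p : ℕ, p.Prime → 7 ≤ p → ∀ f : ℤ → ℕ,
      (∀ (K : Type) [Field K] [NumberField K], Module.finrank ℚ K = 2 →
        f (NumberField.discr K) =
          Nat.card {x : ClassGroup (NumberField.RingOfIntegers K) // x ^ p = 1}) →
      ∀ ε : ℝ, 0 < ε → ∀ᶠ N : ℕ in atTop,
        (N : ℝ) ^ (1 / 2 + 2 / (p : ℝ) - ε) ≤
          ∑ D ∈ (Finset.Ioo (-(N : ℤ)) (0 : ℤ)).filter (fun D : ℤ =>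
              (D % 4 = 1 ∧ D ≠ 1 ∧ Squarefree D) ∨
              (∃ m : ℤ, D = 4 * m ∧ (m % 4 = 2 ∨ m % 4 = 3) ∧ Squarefree m)),
            ((f D : ℝ) - 1) := by
  intro p hp h7 f hf ε hε
  have key : ∀ᶠ N : ℕ in atTop, (N : ℝ) ^ (1 / 2 + 2 / (p : ℝ) - ε) ≤
      ∑ D ∈ (Finset.Ioo (-(N : ℤ)) 0).filter Pool.Agent.helper9.Tors.QD, ((f D : ℝ) - 1) := by
    by_cases h : p = 7
    · subst h
      have h1 := Pool.Agent.FM.V5 (Pool.Agent.FM.V4 (Pool.Agent.FM.V2 Pool.Agent.FM.V1) Pool.Agent.FM.V3)
        f hf ε hε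
      exact_mod_cast h1
    · have h11 : 11 ≤ p := by
        by_contra hc
        push Not at hc
        interval_cases p
        · exact h rfl
        · exact absurd hp (by norm_num)
        · exact absurd hp (by norm_num)
        · exact absurd hp (by norm_num)
      have hpR : (11 : ℝ) ≤ p := by exact_mod_cast h11
      have h2 : min (2 / (p : ℝ)) (max (1 / 4) (3 / (2 * (p : ℝ)))) = 2 / (p : ℝ) := by
        apply min_eq_left
        refine le_trans ?_ (le_max_left _ _)
        rw [div_le_div_iff₀ (by linarith) (by norm_num)]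
        linarith
      have h1 := Pool.Agent.helper9.Tors.final p (by omega) f hf ε hε
      rw [h2] at h1
      exact h1
  filter_upwards [key] with N hN
  refine hN.trans (le_of_eq ?_)
  apply Finset.sum_congr _ (fun _ _ => rfl)
  apply Finset.filter_congr
  intro D hD
  rw [Finset.mem_Ioo] at hD
  exact Pool.Agent.helper9.Tors.qd_iff D hD.2

end Pool.Agent.FM
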