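import Pool.Agent.helper9.Tors.Final

set_option autoImplicit false

/-!
# FM: first moment at `p = 7` (MP_16912e_nt), specification

`Pool/Agent/helper9/Tors` proves `∑ (#Cl[p] - 1) ≥ N ^ (1/2 + min(2/p, max(1/4, 3/(2p))) - ε)`.  At
`p = 7` this is `N ^ (3/4 - ε)`, as the solutions `(m, x)` of `x² + |D| b² = 4 m^p` with
`|D| ≤ 1024 Z⁴` are bounded trivially.  Here they are bounded by the average of `#Cl[7]` over the
small fields (our TorsionAverage, exponent `13/10`), which gives `N ^ (1/2 + 2/7 - ε)`.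
-/

open Finset Filter Topology NumberField Module

namespace Pool.Agent.FM

open Pool.Agent.helper9.Tors

/-- **V1**.  The ideals of a solution are primitive.  Hint: let `g = gcd (a, m)`.  As `m ∈ J`
(`I * J = (m)`), `g ∈ J`, so `(g) = J * L`, hence `(m) = J * L * (m / g)` and, cancelling `J`,
`I = L * (m / g)`.  So `ℓ := m / g` divides every element of `I`, hence `γ` (as `I ^ p = (γ)`, `p ≠ 0`).
Write `γ = ℓ β`.  `β` has trace `t`, norm `n` (`quad_rel`), so `γ` has trace `ℓ t` and norm `ℓ² n`;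
`γ² - x γ + m^p = 0` with `x² - 4 m^p < 0` gives `x = ℓ t` (compare `irrational_of`, or the proof of
`norm_eq` in `helper9/Tors/Quad.lean`).  `ℓ ∣ x`, `ℓ ∣ m` and `gcd (x, m) = 1` give `ℓ = 1`, `g = m`. -/
def V1_stmt : Prop := ∀ (K : Type) [Field K] [NumberField K], finrank ℚ K = 2 → discr K < 0 →
  ∀ (p m x : ℕ) (γ : 𝓞 K) (I J : Ideal (𝓞 K)), p ≠ 0 → 0 < m → IsRep p m x γ I J →
    x ^ 2 < 4 * m ^ p → Nat.Coprime x m →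
    (∀ a : ℤ, (a : 𝓞 K) ∈ J → (m : ℤ) ∣ a) ∧ (∀ (k : ℤ) (L : Ideal (𝓞 K)),
      I = Ideal.span {(k : 𝓞 K)} * L → IsUnit k)

/-- **V2**.  For one field of discriminant `< -4` the number of solutions `(m, x)`, `m ≤ M`, is at
most `100 (1 + M / √|D|) #Cl[p]`.  Proof: `exists_rep` gives `γ_s, I_s, J_s` for every `s ∈ S`, the
class of `I_s` is a `p`-torsion class; it remains to see that the fibre over a class has at most
`2 + 12 M / √|D|` elements.  Fix `s₀` in the fibre, `m₀ = s₀.1`.  For `s` in the fibre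
`I_s * J_{s₀} = (α_s)` (as in `IsRep.inj`: `mk0_eq_mk0_inv_iff`), `N(α_s) = s.1 * m₀ ≤ M m₀`.
`s ↦ α_s` is injective: `α_s = α_{s'}` gives `I_s = I_{s'}`, so `s.1 = s'.1` (`absNorm_eq`) and
`(γ_s) = (γ_{s'})`; the units are `±1` (`norm_ge` and `discr < -4`), so the traces `s.2`, `s'.2` are
equal up to sign, hence equal.
Let `t_s` be the trace of `α_s` and `b_s = (e.toMatrix ![1, α_s]).det` (`quad_rel'`, with one basis `e`;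
it is additive in `α` and vanishes on `ℤ`; `b = 0` implies that `α` is rational):
`t² + |D| b² = 4 s.1 m₀ ≤ 4 M m₀`.
* `b_s = 0`: `α_s = a ∈ ℤ`, `a ∈ J_{s₀}`, so `a = m₀ k` by V1, `I_s = k I_{s₀}`, `k = ± 1` by V1: at most
  2 values of `α_s`.
* `b_s ≠ 0`: `|b| ≤ 2 √(M m₀ / |D|)` and `|t| ≤ 2 √(M m₀)`.  If `b_s = b_{s'}` then `α_s - α_{s'}` is
  an integer `a` in `J_{s₀}`, so `m₀ ∣ a`, `t_s - t_{s'} = 2 a`, so `t_s` is in one class modulo `2 m₀`: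
  at most `2 √(M / m₀) + 1 ≤ 3 √(M / m₀)` values.  Together `≤ 12 M / √|D|`. -/
def V2_stmt : Prop := ∀ (K : Type) [Field K] [NumberField K], finrank ℚ K = 2 → discr K < -4 →
  ∀ (p : ℕ), p ≠ 0 → ∀ (S : Finset (ℕ × ℕ)) (M : ℕ),
    (∀ s ∈ S, 1 < s.1 ∧ s.1 ≤ M ∧ Nat.Coprime s.2 s.1 ∧ s.2 ^ 2 < 4 * s.1 ^ p ∧
      ∃ b : ℤ, (s.2 : ℤ) ^ 2 - 4 * (s.1 : ℤ) ^ p = b ^ 2 * discr K) →
    (S.card : ℝ) ≤ 100 * (1 + M / √(-(discr K : ℤ) : ℝ)) *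
      Nat.card {c : ClassGroup (𝓞 K) // c ^ p = 1}

open Classical in
/-- **V3**.  Partial summation (dyadic): `∑_{0 < -D ≤ X} g D / √|D|` from the partial sums of `g`. -/
def V3_stmt : Prop := ∀ κ : ℝ, 1 / 2 < κ → ∃ C : ℝ, 1 ≤ C ∧ ∀ (C₀ : ℝ) (g : ℤ → ℝ), 0 ≤ C₀ →
  (∀ D, 0 ≤ g D) → (∀ N : ℕ, 1 ≤ N → ∑ D ∈ Finset.Ioo (-(N : ℤ)) 0, g D ≤ C₀ * (N : ℝ) ^ κ) →
  ∀ X : ℕ, 1 ≤ X → ∑ D ∈ Finset.Ioo (-(X : ℤ)) 0, g D / √((-D : ℤ) : ℝ) ≤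
    C * C₀ * (X : ℝ) ^ (κ - 1 / 2)

open Classical in
/-- **V4**.  The solutions with a small discriminant.  Hint: choose `D u` for `u ∈ S`; `D u = -3, -4`:
`bad_disc` with `W = 4` gives `≤ 324 Z² * 4 ≤ 1296 Z^(4κ)`.  For the others, group by `D` (`QD D`
gives the field `K`), `u ↦ (u.1.1 * u.1.2, u.2)` is injective (`prs_inj`, `helper9/Tors/Ineq.lean`, where
the side conditions of `card_torsion` are checked in the same way), V2 with `M = 16 Z²` and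
`g D = f D` for `QD D` (`0` otherwise) gives
`∑_{-D ≤ 1024 Z⁴} 100 (1 + 16 Z² / √|D|) g D`; use `hsum` and V3 with `X = 1024 Z⁴ + 1 ≤ 1025 Z⁴`. -/
def V4_stmt : Prop := ∀ κ : ℝ, 1 / 2 < κ → ∀ C₀ : ℝ, 0 ≤ C₀ → ∃ C : ℝ, 1 ≤ C ∧
  ∀ (p Z Y T : ℕ) (f : ℤ → ℕ), p ≠ 0 → 2 ≤ Z → T ^ 2 < 4 * (Z ^ 2) ^ p →
  (∀ (K : Type) [Field K] [NumberField K], finrank ℚ K = 2 →
      f (discr K) = Nat.card {x : ClassGroup (𝓞 K) // x ^ p = 1}) →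
  (∀ N : ℕ, 1 ≤ N → ∑ D ∈ (Finset.Ioo (-(N : ℤ)) 0).filter QD, (f D : ℝ) ≤ C₀ * (N : ℝ) ^ κ) →
  ∀ S ⊆ Rset p Z Y T, (∀ u ∈ S, ∃ D : ℤ, QD D ∧ D < 0 ∧ -D ≤ 1024 * (Z : ℤ) ^ 4 ∧ ∃ b : ℕ, 0 < b ∧
      u.2 ^ 2 + (-D).toNat * b ^ 2 = 4 * (u.1.1 * u.1.2) ^ p) →
    (S.card : ℝ) ≤ C * (Z : ℝ) ^ (4 * κ)

open Classical in
/-- **V5**.  `p = 7`.  As `final` in `helper9/Tors/Final.lean` (first case, with `θ = 1/7`,
`a = 1/7 - δ`, `T = Z^7`) with `main_ineq2` (`Pool/Agent/helper94/FM/Ineq2.lean`) in the place of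
`main_ineq` and the bound `V4` with `κ = 13/10 + 1/1000` (TorsionAverage:
`⌊(4 * 49) ^ (1/3)⌋ = 5`, `3/2 - 1/5 = 13/10`; `Pool.Agent.helper9.Tors.qd_iff` translates `QD`):
`C Z^(4 κ) ≤ C N^(4 κ a)` and `4 κ a ≤ 0.7435 < 1/2 + 2 a - η`. -/
def V5_stmt : Prop := ∀ (f : ℤ → ℕ),
    (∀ (K : Type) [Field K] [NumberField K], finrank ℚ K = 2 →
      f (discr K) = Nat.card {x : ClassGroup (𝓞 K) // x ^ 7 = 1}) → ∀ ε : ℝ, 0 < ε →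
    ∀ᶠ N : ℕ in atTop, (N : ℝ) ^ (1 / 2 + 2 / (7 : ℝ) - ε) ≤
      ∑ D ∈ (Finset.Ioo (-(N : ℤ)) 0).filter QD, ((f D : ℝ) - 1)

end Pool.Agent.FM
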